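import Pool.Agent.H94.NF.S

/-!
# NF: rows CFU and CFL (the number of elements of a class near a given real number)
-/

set_option autoImplicit false

namespace Pool.NF.CF

open NumberField IsDedekindDomain

variable {K : Type} [Field K] [NumberField K]

theorem ni_eq (I : Ideal (𝓞 K)) : Ni I = Ideal.absNorm I := by
  rw [Ideal.absNorm_apply]; rfl

theorem ni_mul (I J : Ideal (𝓞 K)) : Ni (I * J) = Ni I * Ni J := by
  rw [ni_eq, ni_eq, ni_eq, map_mul]

theorem ni_pow (I : Ideal (𝓞 K)) (k : ℕ) : Ni (I ^ k) = Ni I ^ k := by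
  rw [ni_eq, ni_eq, map_pow]

theorem ni_pos {I : Ideal (𝓞 K)} (hI : I ≠ ⊥) : 0 < Ni I := by
  rw [ni_eq]
  exact Nat.pos_of_ne_zero (fun h => hI (Ideal.absNorm_eq_zero_iff.mp h))

theorem bx_fin (ρ : ℝ) : (Bx K ρ).Finite := by
  have h := Embeddings.finite_of_norm_le K ℂ ρ
  refine Set.Finite.subset (Set.Finite.preimage
    (f := fun a : 𝓞 K => (a : K)) (fun x _ y _ hxy => ?_) h) ?_
  · exact RingOfIntegers.ext hxy
  · intro a ha
    exact ⟨RingOfIntegers.isIntegral_coe a, ha⟩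

theorem cf_fin (z η : ℝ) (I : Ideal (𝓞 K)) (c : 𝓞 K) (Y : ℝ) : (Cf K z η I c Y).Finite := by
  refine (bx_fin (K := K) (η * Y + ‖(z * Y : ℝ)‖)).subset fun a ha σ => ?_
  have h := ha.2 σ
  have h1 : σ (a : K) = (σ (a : K) - ((z * Y : ℝ) : ℂ)) + ((z * Y : ℝ) : ℂ) := by ring
  rw [h1]
  refine (norm_add_le _ _).trans (add_le_add h ?_)
  rw [Complex.norm_real]

/-- The number of elements in a set is bounded by means of an injective map. -/
theorem ncard_le_inj {α β : Type*} {s : Set α} {t : Set β} (f : α → β) (ht : t.Finite)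
    (hst : ∀ a ∈ s, f a ∈ t) (hf : ∀ a ∈ s, ∀ b ∈ s, f a = f b → a = b) : s.ncard ≤ t.ncard :=
  Set.ncard_le_ncard_of_injOn f hst (fun a ha b hb h => hf a ha b hb h) ht

theorem cfu (h : BXUStmt) : CFUStmt := by
  intro K _ _ z η hη
  obtain ⟨C₀, hC₀, hC⟩ := h K
  have hn : 0 ≤ (2 * η) ^ dg K := by positivity
  refine ⟨C₀ * (1 + (2 * η) ^ dg K), by positivity, fun I c Y hI hY => ⟨cf_fin z η I c Y, ?_⟩⟩
  intro P hP s
  have hP0 : (P.asIdeal ^ 2) ≠ ⊥ := pow_ne_zero 2 P.ne_bot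
  have hcop : IsCoprime I (P.asIdeal ^ 2) := by
    refine IsCoprime.pow_right ?_
    rw [Ideal.isCoprime_iff_sup_eq]
    have hmax := P.isMaximal
    refine hmax.1.2 _ (lt_of_le_of_ne le_sup_right ?_)
    intro heq
    exact hP (heq ▸ le_sup_left)
  have hinf : I ⊓ P.asIdeal ^ 2 = I * P.asIdeal ^ 2 := (Ideal.mul_eq_inf_of_coprime
    (Ideal.isCoprime_iff_sup_eq.mp hcop)).symm
  have hne : I * P.asIdeal ^ 2 ≠ ⊥ := mul_ne_zero hI hP0
  obtain ⟨hfin, hcard⟩ := hC (I * P.asIdeal ^ 2) hne 0 (2 * η * Y) (by positivity)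
  have hNp : (0 : ℝ) < Ni I * (Ni P.asIdeal : ℝ) ^ 2 := by
    have h1 := ni_pos hI
    have h2 := ni_pos P.ne_bot
    positivity
  have hNe : ((Ni (I * P.asIdeal ^ 2) : ℕ) : ℝ) = Ni I * (Ni P.asIdeal : ℝ) ^ 2 := by
    rw [ni_mul, ni_pow]; push_cast; ring
  have hYn : 0 ≤ Y ^ dg K := by positivity
  have hfinal : C₀ * (1 + (2 * η * Y) ^ dg K / (Ni (I * P.asIdeal ^ 2) : ℕ)) ≤
      C₀ * (1 + (2 * η) ^ dg K) * (1 + Y ^ dg K / (Ni I * (Ni P.asIdeal : ℝ) ^ 2)) := by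
    rw [hNe, mul_pow (2 * η) Y, mul_assoc C₀]
    refine mul_le_mul_of_nonneg_left ?_ hC₀.le
    have h1 : 0 ≤ Y ^ dg K / (Ni I * (Ni P.asIdeal : ℝ) ^ 2) := by positivity
    rw [mul_div_assoc]
    nlinarith
  refine le_trans ?_ (hcard.trans hfinal)
  rcases Set.eq_empty_or_nonempty {a ∈ Cf K z η I c Y | a - s ∈ P.asIdeal ^ 2} with he | ⟨a₀, ha₀⟩
  · rw [he, Set.ncard_empty]; exact Nat.cast_le.mpr (Nat.zero_le _)
  · refine Nat.cast_le.mpr (ncard_le_inj (fun a => a - a₀) hfin ?_ ?_)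
    · rintro a ⟨⟨ha1, ha2⟩, ha3⟩
      refine ⟨fun σ => ?_, ?_⟩
      · have e : σ ((a - a₀ : 𝓞 K) : K) = (σ (a : K) - ((z * Y : ℝ) : ℂ)) -
            (σ (a₀ : K) - ((z * Y : ℝ) : ℂ)) := by
          push_cast
          rw [map_sub]; ring
        rw [e]
        refine (norm_sub_le _ _).trans ?_
        have := ha2 σ
        have := ha₀.1.2 σ
        linarith
      · rw [sub_zero, ← hinf]
        refine ⟨?_, ?_⟩
        · have := I.sub_mem ha1 ha₀.1.1
          rwa [sub_sub_sub_cancel_right] at this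
        · have := (P.asIdeal ^ 2).sub_mem ha3 ha₀.2
          rwa [sub_sub_sub_cancel_right] at this
    · intro a _ b _ hab
      exact sub_left_injective hab

theorem cfl (h : BXLStmt) : CFLStmt := by
  intro K _ _ z η hη
  obtain ⟨c₀, hc₀, -, hC⟩ := h K
  refine ⟨c₀ * (η / 2) ^ dg K, by positivity, fun I hI => ?_⟩
  obtain ⟨ρ₀, hρ⟩ := hC I hI
  refine ⟨max 1 (max (2 / η) (2 * ρ₀ / η)), le_max_left _ _, fun Y hY c => ?_⟩
  have hY1 : 1 ≤ Y := (le_max_left _ _).trans hY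
  have hY2 : 2 / η ≤ Y := (le_max_left _ _).trans ((le_max_right _ _).trans hY)
  have hY3 : 2 * ρ₀ / η ≤ Y := (le_max_right _ _).trans ((le_max_right _ _).trans hY)
  rw [div_le_iff₀ hη] at hY2 hY3
  obtain ⟨m, hm⟩ : ∃ m : ℤ, ‖((m : ℝ) : ℝ) - z * Y‖ ≤ 1 := by
    refine ⟨⌊z * Y⌋, ?_⟩
    rw [Real.norm_eq_abs, abs_le]
    have h1 := Int.floor_le (z * Y)
    have h2 := Int.lt_floor_add_one (z * Y)
    constructor <;> linarith
  have hb := hρ (η * Y / 2) (by linarith) (c - (m : 𝓞 K))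
  have e : c₀ * (η / 2) ^ dg K * (Y ^ dg K / Ni I) = c₀ * ((η * Y / 2) ^ dg K / Ni I) := by
    have : η * Y / 2 = η / 2 * Y := by ring
    rw [this, mul_pow]; ring
  rw [e]
  refine hb.trans (Nat.cast_le.mpr (ncard_le_inj (fun x => x + (m : 𝓞 K)) (cf_fin z η I c Y) ?_ ?_))
  · rintro x ⟨hx1, hx2⟩
    refine ⟨?_, fun σ => ?_⟩
    · have e2 : x + (m : 𝓞 K) - c = x - (c - (m : 𝓞 K)) := by ring
      show x + (m : 𝓞 K) - c ∈ I
      rw [e2]; exact hx2
    · have e3 : σ ((x + (m : 𝓞 K) : 𝓞 K) : K) - ((z * Y : ℝ) : ℂ) =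
          σ (x : K) + (((m : ℝ) - z * Y : ℝ) : ℂ) := by
        have e4 : σ ((x + (m : 𝓞 K) : 𝓞 K) : K) = σ (x : K) + (m : ℂ) := by
          have : ((x + (m : 𝓞 K) : 𝓞 K) : K) = (x : K) + (m : K) := by
            rw [RingOfIntegers.coe_eq_algebraMap, map_add, map_intCast]
          rw [this, map_add, map_intCast]
        rw [e4]
        push_cast
        ring
      rw [e3]
      refine (norm_add_le _ _).trans ?_
      have h1 := hx1 σ
      rw [Complex.norm_real]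
      linarith
  · intro a _ b _ hab
    exact add_left_injective _ hab

end Pool.NF.CF
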