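import Pool.Agent.H17.NF.N

/-!
# NF: row HER (Hermite reduction)
-/

set_option autoImplicit false

namespace Pool.NF.HER

open Matrix

/-- The quadratic form of `A`. -/
def qf {n : ℕ} (A : Matrix (Fin n) (Fin n) ℝ) (x : Fin n → ℝ) : ℝ := x ⬝ᵥ (A *ᵥ x)

theorem qf_expand {n : ℕ} (A : Matrix (Fin n) (Fin n) ℝ) (x : Fin n → ℝ) :
    qf A x = ∑ i, ∑ j, x i * A i j * x j := by
  simp only [qf, dotProduct, mulVec, Finset.mul_sum, mul_assoc]

theorem diag_eq {n : ℕ} (A γ : Matrix (Fin n) (Fin n) ℝ) (j : Fin n) :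
    (γᵀ * A * γ) j j = qf A (fun i => γ i j) := by
  rw [qf, Matrix.mul_assoc, Matrix.mul_apply]
  rfl

theorem qf_conj {n : ℕ} (A γ : Matrix (Fin n) (Fin n) ℝ) (x : Fin n → ℝ) :
    qf (γᵀ * A * γ) x = qf A (γ *ᵥ x) := by
  rw [qf, qf, Matrix.mul_assoc, ← Matrix.mulVec_mulVec, ← Matrix.mulVec_mulVec,
    Matrix.dotProduct_mulVec, Matrix.vecMul_transpose]

theorem qf_smul {n : ℕ} (A : Matrix (Fin n) (Fin n) ℝ) (c : ℝ) (x : Fin n → ℝ) :
    qf A (c • x) = c ^ 2 * qf A x := by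
  rw [qf, qf, Matrix.mulVec_smul, smul_dotProduct, dotProduct_smul, smul_eq_mul, smul_eq_mul]
  ring

theorem qf_pos {n : ℕ} {A : Matrix (Fin n) (Fin n) ℝ} (hA : A.PosDef) {x : Fin n → ℝ}
    (hx : x ≠ 0) : 0 < qf A x := by
  have := hA.dotProduct_mulVec_pos hx
  simpa [qf] using this

theorem qf_nonneg {n : ℕ} {A : Matrix (Fin n) (Fin n) ℝ} (hA : A.PosDef) (x : Fin n → ℝ) :
    0 ≤ qf A x := by
  by_cases hx : x = 0
  · rw [hx]; simp [qf]
  · exact (qf_pos hA hx).le

theorem symm_of {n : ℕ} {A : Matrix (Fin n) (Fin n) ℝ} (hA : A.PosDef) (i j : Fin n) :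
    A i j = A j i := by
  have := hA.isHermitian.apply i j
  simpa using this.symm

theorem posDef_of {n : ℕ} {A : Matrix (Fin n) (Fin n) ℝ} (h1 : ∀ i j, A i j = A j i)
    (h2 : ∀ x : Fin n → ℝ, x ≠ 0 → 0 < qf A x) : A.PosDef := by
  refine Matrix.PosDef.of_dotProduct_mulVec_pos ?_ ?_
  · ext i j
    simp [h1 i j]
  · intro x hx
    have := h2 x hx
    simpa [qf] using this

/-- A positive definite form is bounded below. -/
theorem lower {n : ℕ} {A : Matrix (Fin (n + 1)) (Fin (n + 1)) ℝ} (hA : A.PosDef) :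
    ∃ m : ℝ, 0 < m ∧ ∀ x : Fin (n + 1) → ℝ, m * ‖x‖ ^ 2 ≤ qf A x := by
  have hc : Continuous (qf A) := by
    unfold qf
    fun_prop
  have hne : (Metric.sphere (0 : Fin (n + 1) → ℝ) 1).Nonempty :=
    NormedSpace.sphere_nonempty.mpr zero_le_one
  obtain ⟨x₀, hx₀, hmin⟩ := (isCompact_sphere (0 : Fin (n + 1) → ℝ) 1).exists_isMinOn hne
    hc.continuousOn
  have hx0 : x₀ ≠ 0 := by
    rintro rfl
    simp at hx₀
  refine ⟨qf A x₀, qf_pos hA hx0, fun x => ?_⟩
  by_cases hx : x = 0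
  · rw [hx]; simp [qf]
  have hn : 0 < ‖x‖ := norm_pos_iff.mpr hx
  have h1 : qf A x₀ ≤ qf A (‖x‖⁻¹ • x) := by
    refine hmin ?_
    simp [norm_smul, hn.ne']
  rw [qf_smul] at h1
  have h2 : (‖x‖⁻¹) ^ 2 * ‖x‖ ^ 2 = 1 := by
    rw [← mul_pow, inv_mul_cancel₀ hn.ne', one_pow]
  calc qf A x₀ * ‖x‖ ^ 2 ≤ (‖x‖⁻¹) ^ 2 * qf A x * ‖x‖ ^ 2 :=
        mul_le_mul_of_nonneg_right h1 (by positivity)
    _ = qf A x * ((‖x‖⁻¹) ^ 2 * ‖x‖ ^ 2) := by ring
    _ = qf A x := by rw [h2, mul_one]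

/-- The real vector of an integral vector. -/
def rv {n : ℕ} (w : Fin n → ℤ) : Fin n → ℝ := fun i => (w i : ℝ)

theorem rv_ne {n : ℕ} {w : Fin n → ℤ} (hw : w ≠ 0) : rv w ≠ 0 := by
  intro h
  refine hw (funext fun i => ?_)
  have := congrFun h i
  simpa [rv] using this

/-- There are only finitely many short integral vectors. -/
theorem short_fin {n : ℕ} {A : Matrix (Fin (n + 1)) (Fin (n + 1)) ℝ} (hA : A.PosDef) (R : ℝ) :
    {w : Fin (n + 1) → ℤ | qf A (rv w) ≤ R}.Finite := by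
  obtain ⟨m, hm, hl⟩ := lower hA
  set B : ℝ := |R| / m + 1 with hB
  have hB1 : 0 ≤ |R| / m := by positivity
  refine (Set.Finite.pi' (fun _ : Fin (n + 1) => Set.finite_Icc (-⌈B⌉) ⌈B⌉)).subset ?_
  intro w hw i
  have h1 := hl (rv w)
  have h2 : ‖rv w‖ ^ 2 ≤ |R| / m := by
    rw [le_div_iff₀ hm]
    have := le_abs_self R
    have hw' : qf A (rv w) ≤ R := hw
    linarith
  have h3 : ‖rv w‖ ≤ B := by
    nlinarith [norm_nonneg (rv w), sq_nonneg (‖rv w‖ - 1)]
  have h4 : ‖rv w i‖ ≤ B := (norm_le_pi_norm _ i).trans h3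
  have h5 : |(w i : ℝ)| ≤ B := h4
  rw [abs_le] at h5
  have h6 := Int.le_ceil B
  refine ⟨?_, ?_⟩
  · have : (-(⌈B⌉ : ℤ) : ℝ) ≤ w i := by linarith
    exact_mod_cast this
  · have : (w i : ℝ) ≤ (⌈B⌉ : ℤ) := by linarith
    exact_mod_cast this

/-- There is a shortest nonzero integral vector. -/
theorem min_vec {n : ℕ} {A : Matrix (Fin (n + 1)) (Fin (n + 1)) ℝ} (hA : A.PosDef) :
    ∃ v : Fin (n + 1) → ℤ, v ≠ 0 ∧ ∀ w : Fin (n + 1) → ℤ, w ≠ 0 → qf A (rv v) ≤ qf A (rv w) := by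
  set e : Fin (n + 1) → ℤ := Pi.single 0 1 with he
  have hne : e ≠ 0 := by
    intro h
    have := congrFun h 0
    simp [he] at this
  have hfin : {w : Fin (n + 1) → ℤ | w ≠ 0 ∧ qf A (rv w) ≤ qf A (rv e)}.Finite :=
    (short_fin hA (qf A (rv e))).subset (fun w hw => hw.2)
  obtain ⟨v, hv, hmin⟩ := Set.exists_min_image _ (fun w => qf A (rv w)) hfin ⟨e, hne, le_refl _⟩
  refine ⟨v, hv.1, fun w hw => ?_⟩
  by_cases h : qf A (rv w) ≤ qf A (rv e)
  · exact hmin w ⟨hw, h⟩
  · exact hv.2.trans (not_le.mp h).le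

/-- A shortest vector is primitive. -/
theorem primitive {n : ℕ} {A : Matrix (Fin (n + 1)) (Fin (n + 1)) ℝ} (hA : A.PosDef)
    {v : Fin (n + 1) → ℤ} (hv : v ≠ 0)
    (hmin : ∀ w : Fin (n + 1) → ℤ, w ≠ 0 → qf A (rv v) ≤ qf A (rv w)) :
    ∃ w : Fin (n + 1) → ℤ, ∑ i, w i * v i = 1 := by
  obtain ⟨d, hd⟩ := (IsPrincipalIdealRing.principal (Ideal.span (Set.range v))).principal
  have hdv : ∀ i, d ∣ v i := by
    intro i
    have : v i ∈ Ideal.span (Set.range v) := Ideal.subset_span ⟨i, rfl⟩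
    rw [hd] at this
    exact Ideal.mem_span_singleton.mp this
  choose u hu using hdv
  have hu0 : u ≠ 0 := by
    rintro rfl
    exact hv (funext fun i => by rw [hu i]; simp)
  have hd0 : d ≠ 0 := by
    rintro rfl
    exact hv (funext fun i => by rw [hu i]; simp)
  have hvu : rv v = (d : ℝ) • rv u := by
    ext i
    simp [rv, hu i]
  have h1 := hmin u hu0
  rw [hvu, qf_smul] at h1
  have h2 := qf_pos hA (rv_ne hu0)
  have h3 : (d : ℝ) ^ 2 ≤ 1 := by
    by_contra hcon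
    push Not at hcon
    nlinarith
  have h4 : d ^ 2 ≤ 1 := by exact_mod_cast h3
  have h5 : IsUnit d := by
    rw [Int.isUnit_iff]
    have : |d| ≤ 1 := by
      rw [← sq_le_one_iff_abs_le_one]; exact h4
    rw [abs_le] at this
    omega
  have h6 : (1 : ℤ) ∈ Ideal.span (Set.range v) := by
    rw [hd]
    exact Ideal.mem_span_singleton.mpr h5.dvd
  rw [Ideal.mem_span_range_iff_exists_fun] at h6
  obtain ⟨w, hw⟩ := h6
  exact ⟨w, hw⟩

/-- A primitive vector is the first column of a unimodular matrix. -/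
theorem extend {n : ℕ} (v w : Fin (n + 1) → ℤ) (h : ∑ i, w i * v i = 1) :
    ∃ γ : Matrix (Fin (n + 1)) (Fin (n + 1)) ℤ, IsUnit γ.det ∧ ∀ i, γ i 0 = v i := by
  let φ : (Fin (n + 1) → ℤ) →ₗ[ℤ] ℤ := ∑ i, w i • LinearMap.proj i
  have hφ : ∀ x, φ x = ∑ i, w i * x i := by
    intro x
    simp [φ]
  have hφv : φ v = 1 := by rw [hφ, h]
  have hsurj : Function.Surjective φ := fun z => ⟨z • v, by rw [map_smul, hφv]; simp⟩
  have hrank : Module.finrank ℤ (LinearMap.ker φ) = n := by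
    have h1 := Submodule.finrank_quotient_add_finrank (LinearMap.ker φ)
    rw [(φ.quotKerEquivOfSurjective hsurj).finrank_eq, Module.finrank_self,
      Module.finrank_fin_fun] at h1
    omega
  let b₀ := Module.finBasis ℤ (LinearMap.ker φ)
  let b : Module.Basis (Fin n) ℤ (LinearMap.ker φ) := b₀.reindex (finCongr hrank)
  let B := Module.Basis.mkFinCons v b (by
    intro c x hx hc
    have h2 := congrArg φ hc
    rw [map_add, map_smul, hφv, LinearMap.mem_ker.mp hx, map_zero, add_zero, smul_eq_mul,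
      mul_one] at h2
    exact h2) (by
    intro z
    refine ⟨-φ z, ?_⟩
    rw [LinearMap.mem_ker, map_add, map_smul, hφv]
    simp)
  have hB : (B : Fin (n + 1) → (Fin (n + 1) → ℤ)) = Fin.cons v ((↑) ∘ b) :=
    Module.Basis.coe_mkFinCons _ _ _ _
  refine ⟨(Pi.basisFun ℤ (Fin (n + 1))).toMatrix B, ?_, ?_⟩
  · rw [← Matrix.isUnit_iff_isUnit_det]
    have := Module.Basis.invertibleToMatrix (Pi.basisFun ℤ (Fin (n + 1))) B
    exact isUnit_of_invertible _
  · intro i
    rw [Module.Basis.toMatrix_apply, Pi.basisFun_repr, hB, Fin.cons_zero]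

/-- The Schur complement of the first diagonal entry. -/
noncomputable def sc {n : ℕ} (B : Matrix (Fin (n + 1)) (Fin (n + 1)) ℝ) :
    Matrix (Fin n) (Fin n) ℝ :=
  fun i j => B i.succ j.succ - B 0 i.succ * B 0 j.succ / B 0 0

theorem qf_cons {n : ℕ} (B : Matrix (Fin (n + 1)) (Fin (n + 1)) ℝ) (hs : ∀ i j, B i j = B j i)
    (h0 : B 0 0 ≠ 0) (s : ℝ) (x : Fin n → ℝ) :
    qf B (Fin.cons s x) = B 0 0 * (s + (∑ j, B 0 j.succ * x j) / B 0 0) ^ 2 + qf (sc B) x := by
  have h1 : qf B (Fin.cons s x) = s * B 0 0 * s + (∑ j, s * B 0 j.succ * x j) +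
      ((∑ i, x i * B i.succ 0 * s) + ∑ i, ∑ j, x i * B i.succ j.succ * x j) := by
    rw [qf_expand, Fin.sum_univ_succ, Fin.sum_univ_succ]
    simp only [Fin.cons_zero, Fin.cons_succ]
    congr 1
    rw [← Finset.sum_add_distrib]
    refine Finset.sum_congr rfl fun i _ => ?_
    rw [Fin.sum_univ_succ]
    simp only [Fin.cons_zero, Fin.cons_succ]
  have h2 : (∑ j, s * B 0 j.succ * x j) = s * ∑ j, B 0 j.succ * x j := by
    rw [Finset.mul_sum]
    exact Finset.sum_congr rfl fun j _ => by ring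
  have h3 : (∑ i, x i * B i.succ 0 * s) = s * ∑ j, B 0 j.succ * x j := by
    rw [Finset.mul_sum]
    refine Finset.sum_congr rfl fun j _ => ?_
    rw [hs j.succ 0]; ring
  have h4 : qf (sc B) x = (∑ i, ∑ j, x i * B i.succ j.succ * x j) -
      (∑ j, B 0 j.succ * x j) ^ 2 / B 0 0 := by
    rw [qf_expand, sq, Finset.sum_mul_sum, Finset.sum_div, ← Finset.sum_sub_distrib]
    refine Finset.sum_congr rfl fun i _ => ?_
    rw [Finset.sum_div, ← Finset.sum_sub_distrib]
    refine Finset.sum_congr rfl fun j _ => ?_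
    simp only [sc]
    field_simp
  rw [h1, h2, h3, h4]
  field_simp
  ring

theorem det_sc {n : ℕ} (B : Matrix (Fin (n + 1)) (Fin (n + 1)) ℝ) (hs : ∀ i j, B i j = B j i)
    (h0 : B 0 0 ≠ 0) : B.det = B 0 0 * (sc B).det := by
  let B' : Matrix (Fin (n + 1)) (Fin (n + 1)) ℝ :=
    fun i j => B i j - (if i = 0 then 0 else B 0 i / B 0 0) * B 0 j
  have h1 : B.det = B'.det := by
    refine Matrix.det_eq_of_forall_row_eq_smul_add_const
      (fun i => if i = 0 then 0 else B 0 i / B 0 0) 0 (by simp) fun i j => ?_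
    simp only [B']
    by_cases hi : i = 0
    · simp [hi]
    · simp [hi]
  rw [h1, Matrix.det_succ_column_zero, Fin.sum_univ_succ]
  have h2 : ∀ i : Fin n, B' i.succ 0 = 0 := by
    intro i
    simp only [B', Fin.succ_ne_zero, if_false]
    rw [hs i.succ 0]
    field_simp
    ring
  have h3 : ∑ i : Fin n, (-1) ^ ((i.succ : Fin (n + 1)) : ℕ) * B' i.succ 0 *
      (B'.submatrix i.succ.succAbove Fin.succ).det = 0 :=
    Finset.sum_eq_zero fun i _ => by rw [h2 i]; ring
  rw [h3, add_zero]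
  have h4 : B' 0 0 = B 0 0 := by simp [B']
  have h5 : B'.submatrix (Fin.succAbove 0) Fin.succ = sc B := by
    ext i j
    show B' (Fin.succAbove 0 i) j.succ = sc B i j
    rw [Fin.zero_succAbove]
    simp only [B', sc, Fin.succ_ne_zero, if_false]
    ring
  rw [h4, h5]
  simp

/-- Reduction without the order. -/
theorem red (M : ℕ) : ∃ C : ℝ, 0 ≤ C ∧ ∀ A : Matrix (Fin M) (Fin M) ℝ, A.PosDef →
    ∃ γ : Matrix (Fin M) (Fin M) ℤ, IsUnit γ.det ∧
      ∏ j, qf A (fun i => (γ i j : ℝ)) ≤ C * A.det := by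
  induction M with
  | zero =>
    refine ⟨1, zero_le_one, fun A _ => ⟨1, by simp, ?_⟩⟩
    simp
  | succ n ih =>
    obtain ⟨C, hC, hred⟩ := ih
    refine ⟨(4 / 3) ^ n * C, by positivity, fun A hA => ?_⟩
    obtain ⟨v, hv, hmin⟩ := min_vec hA
    obtain ⟨w, hw⟩ := primitive hA hv hmin
    obtain ⟨γ₀, hγ₀, hγv⟩ := extend v w hw
    set G : Matrix (Fin (n + 1)) (Fin (n + 1)) ℝ := γ₀.map (Int.cast : ℤ → ℝ) with hG
    have hGdet : G.det = ((γ₀.det : ℤ) : ℝ) := by
      rw [hG]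
      exact (Int.cast_det γ₀).symm
    have hdet1 : ((γ₀.det : ℤ) : ℝ) ^ 2 = 1 := by
      rcases Int.isUnit_iff.mp hγ₀ with h | h <;> rw [h] <;> norm_num
    have hGu : IsUnit G := by
      rw [Matrix.isUnit_iff_isUnit_det, hGdet, isUnit_iff_ne_zero]
      intro h
      rw [h] at hdet1
      norm_num at hdet1
    have hinj : Function.Injective G.mulVec := Matrix.mulVec_injective_of_isUnit hGu
    set B : Matrix (Fin (n + 1)) (Fin (n + 1)) ℝ := Gᵀ * A * G with hB
    have hqB : ∀ x, qf B x = qf A (G *ᵥ x) := fun x => qf_conj A G x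
    have hBs : ∀ i j, B i j = B j i := by
      intro i j
      have hAt : Aᵀ = A := by
        ext i j
        rw [Matrix.transpose_apply]; exact symm_of hA j i
      have : Bᵀ = B := by
        rw [hB, Matrix.transpose_mul, Matrix.transpose_mul, Matrix.transpose_transpose, hAt,
          Matrix.mul_assoc]
      rw [← Matrix.transpose_apply B i j, this]
    have hBpos : ∀ x : Fin (n + 1) → ℝ, x ≠ 0 → 0 < qf B x := by
      intro x hx
      rw [hqB]
      refine qf_pos hA fun h => hx ?_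
      exact hinj (by rw [h, Matrix.mulVec_zero])
    have hBdef : B.PosDef := posDef_of hBs hBpos
    have hBdet : B.det = A.det := by
      rw [hB, Matrix.det_mul, Matrix.det_mul, Matrix.det_transpose, hGdet]
      linear_combination A.det * hdet1
    have hB0 : 0 < B 0 0 := hBdef.diag_pos
    have hB00 : B 0 0 = qf A (rv v) := by
      rw [hB, diag_eq]
      congr 1
      ext i
      simp [hG, rv, hγv i]
    -- integral vectors
    have hGrv : ∀ z : Fin (n + 1) → ℤ, G *ᵥ rv z = rv (γ₀ *ᵥ z) := by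
      intro z
      ext i
      simp [hG, rv, Matrix.mulVec, dotProduct]
    have hγinj : ∀ z : Fin (n + 1) → ℤ, z ≠ 0 → γ₀ *ᵥ z ≠ 0 := by
      intro z hz h
      refine rv_ne hz (hinj ?_)
      rw [hGrv, h, Matrix.mulVec_zero]
      ext i
      simp [rv]
    have hBmin : ∀ z : Fin (n + 1) → ℤ, z ≠ 0 → B 0 0 ≤ qf B (rv z) := by
      intro z hz
      rw [hB00, hqB, hGrv]
      exact hmin _ (hγinj z hz)
    -- the Schur complement
    have hSs : ∀ i j, sc B i j = sc B j i := by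
      intro i j
      simp only [sc]
      rw [hBs i.succ j.succ]; ring
    have hSpos : ∀ x : Fin n → ℝ, x ≠ 0 → 0 < qf (sc B) x := by
      intro x hx
      have h1 := qf_cons B hBs hB0.ne' (-((∑ j, B 0 j.succ * x j) / B 0 0)) x
      rw [neg_add_cancel] at h1
      have h2 : (Fin.cons (-((∑ j, B 0 j.succ * x j) / B 0 0)) x : Fin (n + 1) → ℝ) ≠ 0 := by
        intro h
        refine hx (funext fun i => ?_)
        have := congrFun h i.succ
        simpa using this
      have h3 := hBpos _ h2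
      rw [h1] at h3
      simpa using h3
    obtain ⟨γ', hγ', hprod⟩ := hred (sc B) (posDef_of hSs hSpos)
    -- the choice of `t`
    have hround : ∀ c : ℝ, ∃ t : ℤ, ((t : ℝ) + c) ^ 2 ≤ 1 / 4 := by
      intro c
      refine ⟨round (-c), ?_⟩
      have h1 := abs_sub_round (-c)
      rw [abs_le] at h1
      nlinarith
    choose t ht using fun j : Fin n => hround ((∑ i, B 0 i.succ * (γ' i j : ℝ)) / B 0 0)
    let δ : Matrix (Fin (n + 1)) (Fin (n + 1)) ℤ :=
      fun i j => Fin.cases (Fin.cases (1 : ℤ) (fun j' => t j') j)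
        (fun i' => Fin.cases (0 : ℤ) (fun j' => γ' i' j') j) i
    have hδdet : δ.det = γ'.det := by
      rw [Matrix.det_succ_column_zero, Fin.sum_univ_succ]
      have h3 : ∑ i : Fin n, (-1) ^ ((i.succ : Fin (n + 1)) : ℕ) * δ i.succ 0 *
          (δ.submatrix i.succ.succAbove Fin.succ).det = 0 :=
        Finset.sum_eq_zero fun i _ => by
          have : δ i.succ 0 = 0 := rfl
          rw [this]; ring
      rw [h3, add_zero]
      have h5 : δ.submatrix (Fin.succAbove 0) Fin.succ = γ' := by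
        ext i j
        rfl
      have h6 : δ 0 0 = 1 := rfl
      rw [h5, h6]
      simp
    refine ⟨γ₀ * δ, ?_, ?_⟩
    · rw [Matrix.det_mul, hδdet]
      exact hγ₀.mul hγ'
    have hcol : ∀ j, (fun i => (((γ₀ * δ) i j : ℤ) : ℝ)) = G *ᵥ rv (fun i => δ i j) := by
      intro j
      rw [hGrv]
      ext i
      simp [rv, Matrix.mul_apply, Matrix.mulVec, dotProduct]
    have hq : ∀ j, qf A (fun i => (((γ₀ * δ) i j : ℤ) : ℝ)) = qf B (rv (fun i => δ i j)) := by
      intro j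
      rw [hcol, hqB]
    have h0col : qf B (rv (fun i => δ i 0)) = B 0 0 := by
      have : rv (fun i => δ i 0) = Fin.cons 1 0 := by
        ext i
        refine Fin.cases ?_ (fun i => ?_) i
        · simp [rv, δ]
        · simp [rv, δ]
      rw [this, qf_cons B hBs hB0.ne']
      simp [qf]
    have hscol : ∀ j : Fin n, qf B (rv (fun i => δ i j.succ)) ≤
        4 / 3 * qf (sc B) (fun i => (γ' i j : ℝ)) := by
      intro j
      have e : rv (fun i => δ i j.succ) = Fin.cons (t j : ℝ) (fun i => (γ' i j : ℝ)) := by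
        ext i
        refine Fin.cases ?_ (fun i => ?_) i
        · simp [rv, δ]
        · simp [rv, δ]
      have h1 : (fun i => δ i j.succ) ≠ 0 := by
        intro h
        have h2 : ∀ i, γ' i j = 0 := fun i => congrFun h i.succ
        have h3 : γ'.det = 0 := Matrix.det_eq_zero_of_column_eq_zero j h2
        rw [h3] at hγ'
        exact not_isUnit_zero hγ'
      have h4 := hBmin _ h1
      have h5 := ht j
      rw [e, qf_cons B hBs hB0.ne'] at h4 ⊢
      nlinarith
    rw [Fin.prod_univ_succ]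
    simp only [hq]
    rw [h0col]
    have h7 : ∏ j : Fin n, qf B (rv (fun i => δ i j.succ)) ≤
        ∏ j : Fin n, (4 / 3 * qf (sc B) (fun i => (γ' i j : ℝ))) :=
      Finset.prod_le_prod (fun j _ => qf_nonneg hBdef _) (fun j _ => hscol j)
    rw [Finset.prod_mul_distrib, Finset.prod_const, Finset.card_univ, Fintype.card_fin] at h7
    calc B 0 0 * ∏ j : Fin n, qf B (rv (fun i => δ i j.succ))
        ≤ B 0 0 * ((4 / 3) ^ n * ∏ j : Fin n, qf (sc B) (fun i => (γ' i j : ℝ))) :=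
          mul_le_mul_of_nonneg_left h7 hB0.le
      _ ≤ B 0 0 * ((4 / 3) ^ n * (C * (sc B).det)) :=
          mul_le_mul_of_nonneg_left (mul_le_mul_of_nonneg_left hprod (by positivity)) hB0.le
      _ = (4 / 3) ^ n * C * (B 0 0 * (sc B).det) := by ring
      _ = (4 / 3) ^ n * C * A.det := by rw [← det_sc B hBs hB0.ne', hBdet]

theorem her : HERStmt := by
  intro M
  obtain ⟨C, -, hC⟩ := red M
  refine ⟨C, fun A hA => ?_⟩
  obtain ⟨γ, hγ, hprod⟩ := hC A hA
  set f : Fin M → ℝ := fun j => qf A (fun i => (γ i j : ℝ)) with hf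
  let σ := Tuple.sort f
  have hmono : Monotone (f ∘ σ) := Tuple.monotone_sort f
  have hdiag : ∀ j, (((γ.submatrix id σ).map (Int.cast : ℤ → ℝ))ᵀ * A *
      (γ.submatrix id σ).map (Int.cast : ℤ → ℝ)) j j = f (σ j) := by
    intro j
    rw [diag_eq]
    rfl
  refine ⟨γ.submatrix id σ, ?_, ?_, ?_⟩
  · rw [Matrix.det_permute']
    refine IsUnit.mul ?_ hγ
    exact (Equiv.Perm.sign σ).isUnit
  · intro i j hij
    simp only [hdiag]
    exact hmono hij
  · simp only [hdiag]
    rw [Equiv.prod_comp σ f]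
    exact hprod

end Pool.NF.HER
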